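import Pool.Agent.Run7.h409.Face

/-!
# The extremal face for a torus action
-/

namespace Run7.h409.Face

open DirectSum Run7.h409.Genus0

set_option linter.unusedSectionVars false

theorem coreB {k S Λ : Type} [Field k] [IsAlgClosed k] [CommRing S] [IsDomain S]
    [IsIntegrallyClosed S] [Algebra k S] [AddCommGroup Λ] [LinearOrder Λ] [IsOrderedAddMonoid Λ]
    (𝒜 : Λ → Submodule k S) [GradedAlgebra 𝒜] (hfg : Algebra.FiniteType k S)
    (deg : Λ →+ ℤ) (hdeg : ∀ u, ∀ x ∈ 𝒜 u, x ≠ 0 → 0 ≤ deg u)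
    (hS0 : ∀ u, deg u = 0 → ∀ x ∈ 𝒜 u, ∃ c : k, x = algebraMap k S c)
    (hpos : ∃ u, 0 < deg u ∧ ∃ x ∈ 𝒜 u, x ≠ 0)
    (hL : ∀ P : Ideal S, P.IsPrime → P.IsHomogeneous 𝒜 →
      (∃ u, 0 < deg u ∧ ∃ x ∈ 𝒜 u, x ∉ P) →
      ∃ (n : ℤ) (a b : S), (∀ u, cmp 𝒜 a u ≠ 0 → deg u = n) ∧
        (∀ u, cmp 𝒜 b u ≠ 0 → deg u = n + 1) ∧ a ∉ P ∧ b ∉ P)
    (hG : Nonempty (IntermediateField.adjoin k {x : FractionRing S | ∃ u, ∃ a ∈ 𝒜 u, ∃ b ∈ 𝒜 u,
      x = algebraMap S (FractionRing S) a / algebraMap S (FractionRing S) b} →ₐ[k] RatFunc k)) :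
    ∃ v, deg v = 1 ∧ ∃ z ∈ 𝒜 v, z ≠ 0 := by
  classical
  have h1m : (1 : S) ∈ 𝒜 0 := SetLike.GradedOne.one_mem
  have hcm : ∀ c : k, algebraMap k S c ∈ 𝒜 0 := fun c => by
    rw [Algebra.algebraMap_eq_smul_one]
    exact Submodule.smul_mem _ _ h1m
  obtain ⟨T, hT1, hT2⟩ := exists_gens 𝒜 hfg
  have hdeg0 : ∀ u, ∀ x ∈ 𝒜 u, x ≠ 0 → deg u = 0 → u = 0 := by
    intro u x hx hx0 h
    obtain ⟨c, rfl⟩ := hS0 u h x hx
    exact eq_of_mem 𝒜 hx (hcm c) hx0
  set Tp := T.filter (fun p => 0 < deg p.1) with hTp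
  have hTpne : Tp.Nonempty := by
    by_contra hcon
    rw [Finset.not_nonempty_iff_eq_empty] at hcon
    obtain ⟨u, hu, x, hx, hx0⟩ := hpos
    have key := all_of_gen 𝒜 (fun u => if 0 < deg u then ⊥ else 𝒜 u)
      (by
        intro u
        try dsimp only
        split_ifs <;> simp)
      (by
        intro i j x hx y hy
        by_cases hx0 : x = 0
        · rw [hx0, zero_mul]; exact Submodule.zero_mem _
        by_cases hy0 : y = 0
        · rw [hy0, mul_zero]; exact Submodule.zero_mem _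
        try dsimp only at hx hy
        split_ifs at hx with h1
        · exact absurd ((Submodule.mem_bot k).1 hx) hx0
        · split_ifs at hy with h2
          · exact absurd ((Submodule.mem_bot k).1 hy) hy0
          · rw [if_neg (by rw [map_add]; omega)]
            exact SetLike.mul_mem_graded hx hy)
      (by
        intro c
        try dsimp only
        rw [if_neg (by rw [map_zero]; omega)]
        exact hcm c)
      T
      (by
        intro p hp
        try dsimp only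
        rw [if_neg]
        · exact (hT1 p hp).1
        · intro h
          have : p ∈ Tp := by rw [hTp, Finset.mem_filter]; exact ⟨hp, h⟩
          rw [hcon] at this
          exact absurd this (Finset.notMem_empty p))
      hT2 x u
    try dsimp only at key
    rw [cmp_of_mem 𝒜 hx, if_pos rfl, if_pos hu] at key
    exact hx0 ((Submodule.mem_bot k).1 key)
  have hTp1 : ∀ p ∈ Tp, p.2 ∈ 𝒜 p.1 ∧ p.2 ≠ 0 ∧ 0 < deg p.1 := by
    intro p hp
    rw [hTp, Finset.mem_filter] at hp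
    exact ⟨(hT1 p hp.1).1, (hT1 p hp.1).2, hp.2⟩
  -- the minimal normalised weight
  obtain ⟨p₀, hp₀, hmin⟩ := Finset.exists_min_image Tp
    (fun p => (∏ q ∈ Tp.erase p, (deg q.1).toNat) • p.1) hTpne
  have hprod : ∀ p ∈ Tp, (deg p.1).toNat * (∏ q ∈ Tp.erase p, (deg q.1).toNat) =
      ∏ q ∈ Tp, (deg q.1).toNat := fun p hp => Finset.mul_prod_erase Tp (fun q => (deg q.1).toNat) hp
  have hM : (∏ q ∈ Tp, (deg q.1).toNat) ≠ 0 := by
    rw [Finset.prod_ne_zero_iff]
    intro q hq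
    have := (hTp1 q hq).2.2
    omega
  set M := ∏ q ∈ Tp, (deg q.1).toNat with hMdef
  obtain ⟨hp₀1, hp₀2, hp₀3⟩ := hTp1 p₀ hp₀
  obtain ⟨d₀, hd₀⟩ : ∃ d : ℕ, deg p₀.1 = d := ⟨(deg p₀.1).toNat, (Int.toNat_of_nonneg hp₀3.le).symm⟩
  have hd₀0 : d₀ ≠ 0 := by omega
  set u₀ := p₀.1 with hu₀
  let ℓ : Λ →+ Λ :=
    { toFun := fun w => d₀ • w - deg w • u₀
      map_zero' := by simp
      map_add' := by intro x y; rw [map_add, add_smul, smul_add]; abel }
  have hℓdef : ∀ w, ℓ w = d₀ • w - deg w • u₀ := fun w => rfl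
  have hgen : ∀ p ∈ T, 0 ≤ ℓ p.1 := by
    intro p hp
    rcases (hdeg p.1 p.2 (hT1 p hp).1 (hT1 p hp).2).lt_or_eq with h1 | h1
    · have hpT : p ∈ Tp := by rw [hTp, Finset.mem_filter]; exact ⟨hp, h1⟩
      obtain ⟨d, hd⟩ : ∃ d : ℕ, deg p.1 = d := ⟨(deg p.1).toNat, (Int.toNat_of_nonneg h1.le).symm⟩
      have h2 := hmin p hpT
      have h3 := hprod p hpT
      have h4 := hprod p₀ hp₀
      rw [hd, Int.toNat_natCast] at h3
      rw [← hu₀, hd₀, Int.toNat_natCast] at h4
      set c₀ := ∏ q ∈ Tp.erase p₀, (deg q.1).toNat with hc₀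
      set c := ∏ q ∈ Tp.erase p, (deg q.1).toNat with hc
      have h5 : (d₀ * d) • (c₀ • u₀) ≤ (d₀ * d) • (c • p.1) := nsmul_le_nsmul_right h2 _
      have h6 : (d₀ * d) • (c₀ • u₀) = M • (d • u₀) := by
        rw [smul_smul, smul_smul, ← h4]; congr 1; ring
      have h7 : (d₀ * d) • (c • p.1) = M • (d₀ • p.1) := by
        rw [smul_smul, smul_smul, ← h3]; congr 1; ring
      rw [h6, h7, nsmul_le_nsmul_iff_right hM] at h5
      rw [hℓdef, hd, sub_nonneg, natCast_zsmul]
      exact h5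
    · have h2 := hdeg0 p.1 p.2 (hT1 p hp).1 (hT1 p hp).2 h1.symm
      rw [h2, map_zero]
  have hℓ : ∀ u, ∀ x ∈ 𝒜 u, x ≠ 0 → 0 ≤ ℓ u := by
    intro u x hx hx0
    have key := all_of_gen 𝒜 (fun u => if 0 ≤ ℓ u then 𝒜 u else ⊥)
      (by
        intro u
        try dsimp only
        split_ifs <;> simp)
      (by
        intro i j x hx y hy
        by_cases hx0 : x = 0
        · rw [hx0, zero_mul]; exact Submodule.zero_mem _
        by_cases hy0 : y = 0
        · rw [hy0, mul_zero]; exact Submodule.zero_mem _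
        try dsimp only at hx hy
        split_ifs at hx with h1
        · split_ifs at hy with h2
          · rw [if_pos (by rw [map_add]; exact add_nonneg h1 h2)]
            exact SetLike.mul_mem_graded hx hy
          · exact absurd ((Submodule.mem_bot k).1 hy) hy0
        · exact absurd ((Submodule.mem_bot k).1 hx) hx0)
      (by
        intro c
        try dsimp only
        rw [if_pos (by rw [map_zero])]
        exact hcm c)
      T
      (by
        intro p hp
        try dsimp only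
        rw [if_pos (hgen p hp)]
        exact (hT1 p hp).1)
      hT2 x u
    try dsimp only at key
    rw [cmp_of_mem 𝒜 hx, if_pos rfl] at key
    split_ifs at key with h
    · exact h
    · exact absurd ((Submodule.mem_bot k).1 key) hx0
  have hinj : ∀ u, ℓ u = 0 → deg u = 0 → u = 0 := by
    intro u h1 h2
    rw [hℓdef, h2, zero_smul, sub_zero] at h1
    have h3 : d₀ • u = d₀ • (0 : Λ) := by rw [h1, smul_zero]
    apply le_antisymm
    · exact (nsmul_le_nsmul_iff_right hd₀0).1 h3.le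
    · exact (nsmul_le_nsmul_iff_right hd₀0).1 h3.ge
  obtain ⟨j⟩ := hG
  have hle : faceField k S 𝒜 ℓ ≤ IntermediateField.adjoin k {x : FractionRing S |
      ∃ u, ∃ a ∈ 𝒜 u, ∃ b ∈ 𝒜 u,
        x = algebraMap S (FractionRing S) a / algebraMap S (FractionRing S) b} := by
    unfold faceField
    apply IntermediateField.adjoin.mono
    rintro x ⟨u, _, a, ha, b, hb, h⟩
    exact ⟨u, a, ha, b, hb, h⟩
  exact core 𝒜 hfg deg hdeg hS0 hL ℓ hℓ hinj
    ⟨u₀, by rw [hℓdef, hd₀, natCast_zsmul, sub_self], hp₀3, p₀.2, hp₀1, hp₀2⟩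
    (G0_of_embedding (j.comp (IntermediateField.inclusion hle)))

end Run7.h409.Face
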