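import Pool.Agent.Run7.h409.Genus0

/-!
# Nonvanishing in degree one from an extremal face of genus zero
-/

namespace Run7.h409.Face

open DirectSum Run7.h409.Genus0

set_option linter.unusedSectionVars false

section graded

variable {k S Λ : Type} [Field k] [CommRing S] [Algebra k S] [AddCommGroup Λ] [DecidableEq Λ]
variable (𝒜 : Λ → Submodule k S) [GradedAlgebra 𝒜]

/-- the component of weight `u` -/
def cmp (x : S) (u : Λ) : S := ((decompose 𝒜 x u : 𝒜 u) : S)

theorem cmp_mem (x : S) (u : Λ) : cmp 𝒜 x u ∈ 𝒜 u := (decompose 𝒜 x u).2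

theorem cmp_of_mem {x : S} {u : Λ} (hx : x ∈ 𝒜 u) (v : Λ) :
    cmp 𝒜 x v = if u = v then x else 0 := by
  unfold cmp
  split_ifs with h
  · subst h
    exact decompose_of_mem_same 𝒜 hx
  · exact decompose_of_mem_ne 𝒜 hx h

theorem eq_of_mem {x : S} {u v : Λ} (hx : x ∈ 𝒜 u) (hy : x ∈ 𝒜 v) (h : x ≠ 0) : u = v := by
  by_contra hne
  have h1 := cmp_of_mem 𝒜 hx v
  have h2 := cmp_of_mem 𝒜 hy v
  rw [if_neg hne] at h1
  rw [if_pos rfl] at h2
  exact h (h2.symm.trans h1)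

theorem cmp_add (x y : S) (u : Λ) : cmp 𝒜 (x + y) u = cmp 𝒜 x u + cmp 𝒜 y u := by
  unfold cmp
  rw [decompose_add]; rfl

theorem cmp_zero (u : Λ) : cmp 𝒜 (0 : S) u = 0 := by
  unfold cmp
  rw [decompose_zero]; rfl

theorem cmp_sum {ι : Type} (s : Finset ι) (f : ι → S) (u : Λ) :
    cmp 𝒜 (∑ i ∈ s, f i) u = ∑ i ∈ s, cmp 𝒜 (f i) u := by
  classical
  induction s using Finset.induction_on with
  | empty => simp [cmp_zero]
  | insert a s ha ih => rw [Finset.sum_insert ha, Finset.sum_insert ha, cmp_add, ih]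

/-- the support -/
noncomputable def supp (x : S) : Finset Λ := by classical exact (decompose 𝒜 x).support

theorem sum_cmp (x : S) : ∑ u ∈ supp 𝒜 x, cmp 𝒜 x u = x := by
  classical
  unfold supp cmp
  convert sum_support_decompose 𝒜 x

/-- products of components -/
theorem cmp_mul_mem {N M Q : Λ → Submodule k S} (hQ : ∀ u, Q u ≤ 𝒜 u)
    (h : ∀ i j, ∀ x ∈ N i, ∀ y ∈ M j, x * y ∈ Q (i + j)) {x y : S}
    (hx : ∀ u, cmp 𝒜 x u ∈ N u) (hy : ∀ u, cmp 𝒜 y u ∈ M u) (u : Λ) : cmp 𝒜 (x * y) u ∈ Q u := by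
  have hxy : x * y = ∑ i ∈ supp 𝒜 x, ∑ j ∈ supp 𝒜 y, cmp 𝒜 x i * cmp 𝒜 y j := by
    conv_lhs => rw [← sum_cmp 𝒜 x, ← sum_cmp 𝒜 y]
    rw [Finset.sum_mul_sum]
  rw [hxy, cmp_sum]
  refine Submodule.sum_mem _ (fun i _ => ?_)
  rw [cmp_sum]
  refine Submodule.sum_mem _ (fun j _ => ?_)
  have h1 := h i j _ (hx i) _ (hy j)
  rw [cmp_of_mem 𝒜 (hQ _ h1)]
  split_ifs with h2
  · rw [← h2]; exact h1
  · exact Submodule.zero_mem _

/-- a multiplicative family of subspaces of the weight spaces containing generators is everything -/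
theorem all_of_gen (M : Λ → Submodule k S) (hM : ∀ u, M u ≤ 𝒜 u)
    (h : ∀ i j, ∀ x ∈ M i, ∀ y ∈ M j, x * y ∈ M (i + j)) (h0 : ∀ c : k, algebraMap k S c ∈ M 0)
    (T : Finset (Λ × S)) (hT : ∀ p ∈ T, p.2 ∈ M p.1)
    (hgen : Algebra.adjoin k ((fun p : Λ × S => p.2) '' (T : Set (Λ × S))) = ⊤) (x : S) (u : Λ) :
    cmp 𝒜 x u ∈ M u := by
  revert u
  have hx : x ∈ Algebra.adjoin k ((fun p : Λ × S => p.2) '' (T : Set (Λ × S))) := by
    rw [hgen]; exact Algebra.mem_top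
  induction hx using Algebra.adjoin_induction with
  | mem x hx =>
    obtain ⟨p, hp, rfl⟩ := hx
    intro u
    rw [cmp_of_mem 𝒜 (hM _ (hT p hp))]
    split_ifs with h2
    · rw [← h2]; exact hT p hp
    · exact Submodule.zero_mem _
  | algebraMap c =>
    intro u
    rw [cmp_of_mem 𝒜 (hM _ (h0 c))]
    split_ifs with h2
    · rw [← h2]; exact h0 c
    · exact Submodule.zero_mem _
  | add x y _ _ hx hy =>
    intro u
    rw [cmp_add]
    exact Submodule.add_mem _ (hx u) (hy u)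
  | mul x y _ _ hx hy => exact fun u => cmp_mul_mem 𝒜 hM h hx hy u

/-- homogeneous prime ideals from families of subspaces -/
theorem exists_prime {Λ : Type} [AddCommGroup Λ] [LinearOrder Λ] [IsOrderedAddMonoid Λ]
    (𝒜 : Λ → Submodule k S) [GradedAlgebra 𝒜] (N : Λ → Submodule k S) (hN : ∀ u, N u ≤ 𝒜 u)
    (h1 : ∀ i j, ∀ x ∈ 𝒜 i, ∀ y ∈ N j, x * y ∈ N (i + j))
    (h2 : ∀ i j, ∀ x ∈ 𝒜 i, ∀ y ∈ 𝒜 j, x * y ∈ N (i + j) → x ∈ N i ∨ y ∈ N j)
    (h3 : (1 : S) ∉ N 0) :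
    ∃ P : Ideal S, P.IsPrime ∧ P.IsHomogeneous 𝒜 ∧ ∀ x, x ∈ P ↔ ∀ u, cmp 𝒜 x u ∈ N u := by
  let P : Ideal S :=
    { carrier := {x | ∀ u, cmp 𝒜 x u ∈ N u}
      add_mem' := by
        intro x y hx hy u
        rw [cmp_add]
        exact Submodule.add_mem _ (hx u) (hy u)
      zero_mem' := by
        intro u
        rw [cmp_zero]
        exact Submodule.zero_mem _
      smul_mem' := by
        intro c x hx u
        exact cmp_mul_mem 𝒜 hN h1 (fun u => cmp_mem 𝒜 c u) hx u }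
  have hP : ∀ x, x ∈ P ↔ ∀ u, cmp 𝒜 x u ∈ N u := fun x => Iff.rfl
  have hmem : ∀ u, ∀ x ∈ 𝒜 u, x ∈ P ↔ x ∈ N u := by
    intro u x hx
    rw [hP]
    constructor
    · intro h
      have := h u
      rw [cmp_of_mem 𝒜 hx, if_pos rfl] at this
      exact this
    · intro h v
      rw [cmp_of_mem 𝒜 hx]
      split_ifs with h'
      · rw [← h']; exact h
      · exact Submodule.zero_mem _
  have hhom : P.IsHomogeneous 𝒜 := by
    intro i x hx
    have h4 : ((decompose 𝒜 x i : 𝒜 i) : S) ∈ 𝒜 i := (decompose 𝒜 x i).2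
    exact (hmem i _ h4).2 ((hP x).1 hx i)
  refine ⟨P, ?_, hhom, hP⟩
  refine hhom.isPrime_of_homogeneous_mem_or_mem ?_ ?_
  · intro h
    have h5 : (1 : S) ∈ P := by rw [h]; exact Submodule.mem_top
    exact h3 ((hmem 0 1 (SetLike.GradedOne.one_mem)).1 h5)
  · rintro x y ⟨i, hx⟩ ⟨j, hy⟩ hxy
    have h6 : x * y ∈ 𝒜 (i + j) := SetLike.mul_mem_graded hx hy
    rcases h2 i j x hx y hy ((hmem _ _ h6).1 hxy) with h | h
    · left; exact (hmem _ _ hx).2 h
    · right; exact (hmem _ _ hy).2 h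

end graded

/-- generators which are weight vectors -/
theorem exists_gens {k S Λ : Type} [Field k] [CommRing S] [Algebra k S] [AddCommGroup Λ]
    [DecidableEq Λ] (𝒜 : Λ → Submodule k S) [GradedAlgebra 𝒜] (hfg : Algebra.FiniteType k S) :
    ∃ T : Finset (Λ × S), (∀ p ∈ T, p.2 ∈ 𝒜 p.1 ∧ p.2 ≠ 0) ∧
      Algebra.adjoin k ((fun p : Λ × S => p.2) '' (T : Set (Λ × S))) = ⊤ := by
  classical
  obtain ⟨t, ht⟩ := hfg.out
  refine ⟨(t.biUnion (fun x => (supp 𝒜 x).image (fun u => (u, cmp 𝒜 x u)))).filter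
    (fun p => p.2 ≠ 0), ?_, ?_⟩
  · intro p hp
    rw [Finset.mem_filter, Finset.mem_biUnion] at hp
    obtain ⟨⟨x, _, hx⟩, h0⟩ := hp
    rw [Finset.mem_image] at hx
    obtain ⟨u, _, rfl⟩ := hx
    exact ⟨cmp_mem 𝒜 x u, h0⟩
  · rw [eq_top_iff, ← ht]
    apply Algebra.adjoin_le
    intro x hx
    rw [← sum_cmp 𝒜 x]
    refine Subalgebra.sum_mem _ (fun u hu => ?_)
    by_cases h0 : cmp 𝒜 x u = 0
    · rw [h0]; exact Subalgebra.zero_mem _
    · apply Algebra.subset_adjoin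
      refine ⟨(u, cmp 𝒜 x u), ?_, rfl⟩
      rw [Finset.mem_coe, Finset.mem_filter, Finset.mem_biUnion]
      exact ⟨⟨x, hx, Finset.mem_image.2 ⟨u, hu, rfl⟩⟩, h0⟩

/-- quotients of two weight vectors of the same weight in the face `ℓ = 0` -/
noncomputable def faceField (k S : Type) [Field k] [CommRing S] [IsDomain S] [Algebra k S] {Λ Γ : Type}
    [AddCommGroup Λ] [AddCommGroup Γ] (𝒜 : Λ → Submodule k S) (ℓ : Λ →+ Γ) :
    IntermediateField k (FractionRing S) :=
  IntermediateField.adjoin k {x | ∃ u, ℓ u = 0 ∧ ∃ a ∈ 𝒜 u, ∃ b ∈ 𝒜 u,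
    x = algebraMap S (FractionRing S) a / algebraMap S (FractionRing S) b}

section main

variable {k S Λ Γ : Type} [Field k] [CommRing S] [IsDomain S]
  [IsIntegrallyClosed S] [Algebra k S] [AddCommGroup Λ] [LinearOrder Λ] [IsOrderedAddMonoid Λ]
  [AddCommGroup Γ] [LinearOrder Γ] [IsOrderedAddMonoid Γ]
  (𝒜 : Λ → Submodule k S) [GradedAlgebra 𝒜]

theorem faceField_rep (ℓ : Λ →+ Γ) (x : FractionRing S) (hx : x ∈ faceField k S 𝒜 ℓ) :
    ∃ u, ℓ u = 0 ∧ ∃ a ∈ 𝒜 u, ∃ b ∈ 𝒜 u, b ≠ 0 ∧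
      x = algebraMap S (FractionRing S) a / algebraMap S (FractionRing S) b := by
  have hinj := FaithfulSMul.algebraMap_injective S (FractionRing S)
  have h1m : (1 : S) ∈ 𝒜 0 := SetLike.GradedOne.one_mem
  have hcm : ∀ c : k, algebraMap k S c ∈ 𝒜 0 := fun c => by
    rw [Algebra.algebraMap_eq_smul_one]
    exact Submodule.smul_mem _ _ h1m
  have hne : ∀ b : S, b ≠ 0 → algebraMap S (FractionRing S) b ≠ 0 := fun b hb h => hb (by
    apply hinj
    rw [h, map_zero])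
  unfold faceField at hx
  induction hx using IntermediateField.adjoin_induction with
  | mem x hx =>
    obtain ⟨u, hu, a, ha, b, hb, rfl⟩ := hx
    by_cases hb0 : b = 0
    · refine ⟨0, map_zero ℓ, 0, Submodule.zero_mem _, 1, h1m, one_ne_zero, ?_⟩
      rw [hb0]; simp
    · exact ⟨u, hu, a, ha, b, hb, hb0, rfl⟩
  | algebraMap c =>
    refine ⟨0, map_zero ℓ, algebraMap k S c, hcm c, 1, h1m, one_ne_zero, ?_⟩
    rw [map_one, div_one, ← IsScalarTower.algebraMap_apply]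
  | add x y _ _ hx hy =>
    obtain ⟨u, hu, a, ha, b, hb, hb0, rfl⟩ := hx
    obtain ⟨v, hv, c, hc, d, hd, hd0, rfl⟩ := hy
    refine ⟨u + v, by rw [map_add, hu, hv, add_zero], a * d + b * c, ?_, b * d,
      SetLike.mul_mem_graded hb hd, mul_ne_zero hb0 hd0, ?_⟩
    · exact Submodule.add_mem _ (SetLike.mul_mem_graded ha hd) (SetLike.mul_mem_graded hb hc)
    · rw [div_add_div _ _ (hne b hb0) (hne d hd0)]
      simp only [map_mul, map_add]
  | inv x _ hx =>
    obtain ⟨u, hu, a, ha, b, hb, hb0, rfl⟩ := hx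
    by_cases ha0 : a = 0
    · refine ⟨0, map_zero ℓ, 0, Submodule.zero_mem _, 1, h1m, one_ne_zero, ?_⟩
      rw [ha0]; simp
    · exact ⟨u, hu, b, hb, a, ha, ha0, by rw [inv_div]⟩
  | mul x y _ _ hx hy =>
    obtain ⟨u, hu, a, ha, b, hb, hb0, rfl⟩ := hx
    obtain ⟨v, hv, c, hc, d, hd, hd0, rfl⟩ := hy
    refine ⟨u + v, by rw [map_add, hu, hv, add_zero], a * c, SetLike.mul_mem_graded ha hc, b * d,
      SetLike.mul_mem_graded hb hd, mul_ne_zero hb0 hd0, ?_⟩
    rw [div_mul_div_comm, map_mul, map_mul]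


/-- the main theorem: nonvanishing in degree one from an extremal face of genus zero -/
theorem core (hfg : Algebra.FiniteType k S)
    (deg : Λ →+ ℤ) (hdeg : ∀ u, ∀ x ∈ 𝒜 u, x ≠ 0 → 0 ≤ deg u)
    (hS0 : ∀ u, deg u = 0 → ∀ x ∈ 𝒜 u, ∃ c : k, x = algebraMap k S c)
    (hL : ∀ P : Ideal S, P.IsPrime → P.IsHomogeneous 𝒜 →
      (∃ u, 0 < deg u ∧ ∃ x ∈ 𝒜 u, x ∉ P) →
      ∃ (n : ℤ) (a b : S), (∀ u, cmp 𝒜 a u ≠ 0 → deg u = n) ∧
        (∀ u, cmp 𝒜 b u ≠ 0 → deg u = n + 1) ∧ a ∉ P ∧ b ∉ P)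
    (ℓ : Λ →+ Γ) (hℓ : ∀ u, ∀ x ∈ 𝒜 u, x ≠ 0 → 0 ≤ ℓ u)
    (hinj : ∀ u, ℓ u = 0 → deg u = 0 → u = 0)
    (hpt : ∃ u, ℓ u = 0 ∧ 0 < deg u ∧ ∃ x ∈ 𝒜 u, x ≠ 0)
    (hG : G0 k (faceField k S 𝒜 ℓ)) :
    ∃ v, deg v = 1 ∧ ∃ z ∈ 𝒜 v, z ≠ 0 := by
  classical
  have h1m : (1 : S) ∈ 𝒜 0 := SetLike.GradedOne.one_mem
  have hcm : ∀ c : k, algebraMap k S c ∈ 𝒜 0 := fun c => by
    rw [Algebra.algebraMap_eq_smul_one]
    exact Submodule.smul_mem _ _ h1m
  -- both weights are in the face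
  have hface : ∀ i j, ∀ x ∈ 𝒜 i, ∀ y ∈ 𝒜 j, x ≠ 0 → y ≠ 0 → ℓ (i + j) = 0 → ℓ i = 0 ∧ ℓ j = 0 := by
    intro i j x hx y hy hx0 hy0 h
    rw [map_add] at h
    have h1 := hℓ i x hx hx0
    have h2 := hℓ j y hy hy0
    exact (add_eq_zero_iff_of_nonneg h1 h2).1 h
  -- Step A
  obtain ⟨n, A, B, wa, wb, hA, hB, hA0, hB0, hla, hlb, hda, hdb⟩ : ∃ (n : ℤ) (A B : S) (wa wb : Λ),
      A ∈ 𝒜 wa ∧ B ∈ 𝒜 wb ∧ A ≠ 0 ∧ B ≠ 0 ∧ ℓ wa = 0 ∧ ℓ wb = 0 ∧ deg wa = n ∧ deg wb = n + 1 := by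
    obtain ⟨P, hP1, hP2, hP3⟩ := exists_prime 𝒜 (fun u => if ℓ u = 0 then ⊥ else 𝒜 u)
      (by
        intro u
        try dsimp only
        split_ifs <;> simp)
      (by
        intro i j x hx y hy
        by_cases hx0 : x = 0
        · rw [hx0, zero_mul]; exact Submodule.zero_mem _
        by_cases hy0 : y = 0
        · rw [hy0, mul_zero]; exact Submodule.zero_mem _
        have hy' : y ∈ 𝒜 j := by
          try dsimp only at hy
          split_ifs at hy with h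
          · rw [Submodule.mem_bot] at hy; exact absurd hy hy0
          · exact hy
        try dsimp only
        split_ifs with h
        · have h2 := hface i j x hx y hy' hx0 hy0 h
          try dsimp only at hy
          rw [if_pos h2.2, Submodule.mem_bot] at hy
          exact absurd hy hy0
        · exact SetLike.mul_mem_graded hx hy')
      (by
        intro i j x hx y hy hxy
        try dsimp only at hxy ⊢
        by_cases hi : ℓ i = 0
        · by_cases hj : ℓ j = 0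
          · rw [if_pos (by rw [map_add, hi, hj, add_zero]), Submodule.mem_bot] at hxy
            rw [if_pos hi, if_pos hj, Submodule.mem_bot, Submodule.mem_bot]
            exact mul_eq_zero.1 hxy
          · right; rw [if_neg hj]; exact hy
        · left; rw [if_neg hi]; exact hx)
      (by
        try dsimp only
        rw [if_pos (map_zero ℓ), Submodule.mem_bot]
        exact one_ne_zero)
    have hex : ∀ x, x ∉ P → ∃ u, ℓ u = 0 ∧ cmp 𝒜 x u ≠ 0 := by
      intro x hx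
      rw [hP3] at hx
      push Not at hx
      obtain ⟨u, hu⟩ := hx
      try dsimp only at hu
      split_ifs at hu with h
      · rw [Submodule.mem_bot] at hu; exact ⟨u, h, hu⟩
      · exact absurd (cmp_mem 𝒜 x u) hu
    obtain ⟨u, hu1, hu2, x, hx, hx0⟩ := hpt
    obtain ⟨n, a, b, ha, hb, haP, hbP⟩ := hL P hP1 hP2 ⟨u, hu2, x, hx, by
      intro hxP
      have h := (hP3 x).1 hxP u
      rw [cmp_of_mem 𝒜 hx, if_pos rfl] at h
      try dsimp only at h
      rw [if_pos hu1, Submodule.mem_bot] at h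
      exact hx0 h⟩
    obtain ⟨wa, hwa, ha0⟩ := hex a haP
    obtain ⟨wb, hwb, hb0⟩ := hex b hbP
    exact ⟨n, _, _, wa, wb, cmp_mem 𝒜 a wa, cmp_mem 𝒜 b wb, ha0, hb0, hwa, hwb, ha wa ha0,
      hb wb hb0⟩
  have hn0 : 0 ≤ n := by rw [← hda]; exact hdeg wa A hA hA0
  -- Step B
  set K := FractionRing S with hK
  set ι : S →+* K := algebraMap S K with hι
  have hιinj : Function.Injective ι := FaithfulSMul.algebraMap_injective S K
  have hne : ∀ b : S, b ≠ 0 → ι b ≠ 0 := fun b hb h => hb (hιinj (by rw [h, map_zero]))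
  set F := faceField k S 𝒜 ℓ with hF
  set u₁ : K := ι B / ι A with hu₁
  have hu₁0 : u₁ ≠ 0 := div_ne_zero (hne B hB0) (hne A hA0)
  have hmemF : ∀ w, ℓ w = 0 → ∀ z ∈ 𝒜 w, ι z * (u₁ ^ (deg w).toNat)⁻¹ ∈ F := by
    intro w hw z hz
    by_cases hz0 : z = 0
    · rw [hz0, map_zero, zero_mul]; exact zero_mem _
    have hd := hdeg w z hz hz0
    obtain ⟨m, hm⟩ : ∃ m : ℕ, deg w = m := ⟨(deg w).toNat, (Int.toNat_of_nonneg hd).symm⟩
    rw [hm, Int.toNat_natCast]
    have hwt : w + m • wa = m • wb := by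
      rw [← sub_eq_zero]
      apply hinj
      · rw [map_sub, map_add, map_nsmul, map_nsmul, hw, hla, hlb]; simp
      · rw [map_sub, map_add, map_nsmul, map_nsmul, hm, hda, hdb]; simp only [nsmul_eq_mul]; ring
    have h1 : z * A ^ m ∈ 𝒜 (m • wb) := by
      rw [← hwt]
      exact SetLike.mul_mem_graded hz (SetLike.pow_mem_graded m hA)
    have h2 : B ^ m ∈ 𝒜 (m • wb) := SetLike.pow_mem_graded m hB
    have h3 : ι z * (u₁ ^ m)⁻¹ = ι (z * A ^ m) / ι (B ^ m) := by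
      rw [hu₁, map_mul, map_pow, map_pow, div_pow, inv_div]; ring
    rw [h3, hF]
    apply IntermediateField.subset_adjoin
    exact ⟨m • wb, by rw [map_nsmul, hlb, smul_zero], _, h1, _, h2, rfl⟩
  let Y : Λ → S → F := fun w z =>
    if h : ι z * (u₁ ^ (deg w).toNat)⁻¹ ∈ F then ⟨_, h⟩ else 0
  have hY : ∀ w, ℓ w = 0 → ∀ z ∈ 𝒜 w, ((Y w z : F) : K) = ι z * (u₁ ^ (deg w).toNat)⁻¹ := by
    intro w hw z hz
    show (((if h : ι z * (u₁ ^ (deg w).toNat)⁻¹ ∈ F then ⟨_, h⟩ else 0 : F)) : K) = _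
    rw [dif_pos (hmemF w hw z hz)]
  have hY0 : ∀ w, ℓ w = 0 → ∀ z ∈ 𝒜 w, z ≠ 0 → Y w z ≠ 0 := by
    intro w hw z hz hz0 h
    have h1 := hY w hw z hz
    rw [h] at h1
    have h2 : ι z * (u₁ ^ (deg w).toNat)⁻¹ ≠ 0 :=
      mul_ne_zero (hne z hz0) (inv_ne_zero (pow_ne_zero _ hu₁0))
    exact h2 (by rw [← h1]; rfl)
  have hYadd : ∀ w, ℓ w = 0 → ∀ z ∈ 𝒜 w, ∀ z' ∈ 𝒜 w, Y w (z + z') = Y w z + Y w z' := by
    intro w hw z hz z' hz'
    apply Subtype.ext
    rw [hY w hw _ (Submodule.add_mem _ hz hz')]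
    show _ = ((Y w z : F) : K) + ((Y w z' : F) : K)
    rw [hY w hw z hz, hY w hw z' hz', map_add, add_mul]
  have hYmul : ∀ w w', ℓ w = 0 → ℓ w' = 0 → ∀ z ∈ 𝒜 w, ∀ z' ∈ 𝒜 w', z ≠ 0 → z' ≠ 0 →
      Y (w + w') (z * z') = Y w z * Y w' z' := by
    intro w w' hw hw' z hz z' hz' hz0 hz0'
    apply Subtype.ext
    rw [hY _ (by rw [map_add, hw, hw', add_zero]) _ (SetLike.mul_mem_graded hz hz')]
    show _ = ((Y w z : F) : K) * ((Y w' z' : F) : K)
    rw [hY w hw z hz, hY w' hw' z' hz', map_mul, map_add,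
      Int.toNat_add (hdeg w z hz hz0) (hdeg w' z' hz' hz0'), pow_add, mul_inv]
    ring
  have hYc : ∀ c : k, Y 0 (algebraMap k S c) = algebraMap k F c := by
    intro c
    apply Subtype.ext
    rw [hY 0 (map_zero ℓ) _ (hcm c), map_zero]
    show _ = algebraMap k K c
    rw [Int.toNat_zero, pow_zero, inv_one, mul_one, hι, ← IsScalarTower.algebraMap_apply]
  -- the levels
  have hlev : ∀ (P : Place F), (∀ c : k, c ≠ 0 → P.v (algebraMap k F c) = 0) → ∀ (N₀ : ℤ), 0 < N₀ →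
      ∀ u, ℓ u = 0 → ∀ t : ℤ, ∃ L : Submodule k S, ∀ z, z ∈ L ↔
        z ∈ 𝒜 u ∧ (z ≠ 0 → t ≤ N₀ * P.v (Y u z)) := by
    intro P hP N₀ hN₀ u hu t
    refine ⟨{ carrier := {z | z ∈ 𝒜 u ∧ (z ≠ 0 → t ≤ N₀ * P.v (Y u z))}
              add_mem' := ?_
              zero_mem' := ?_
              smul_mem' := ?_ }, fun z => Iff.rfl⟩
    · rintro z z' ⟨hz, hz1⟩ ⟨hz', hz1'⟩
      refine ⟨Submodule.add_mem _ hz hz', fun h0 => ?_⟩
      by_cases hz0 : z = 0
      · rw [hz0, zero_add] at h0 ⊢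
        exact hz1' h0
      by_cases hz0' : z' = 0
      · rw [hz0', add_zero] at h0 ⊢
        exact hz1 h0
      have h1 := P.add _ _ (hY0 u hu z hz hz0) (hY0 u hu z' hz' hz0') (by
        rw [← hYadd u hu z hz z' hz']
        exact hY0 u hu _ (Submodule.add_mem _ hz hz') h0)
      rw [hYadd u hu z hz z' hz']
      have h2 := hz1 hz0
      have h3 := hz1' hz0'
      rcases min_le_iff.1 h1 with h4 | h4
      · exact h2.trans (mul_le_mul_of_nonneg_left h4 hN₀.le)
      · exact h3.trans (mul_le_mul_of_nonneg_left h4 hN₀.le)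
    · exact ⟨Submodule.zero_mem _, fun h => absurd rfl h⟩
    · rintro c z ⟨hz, hz1⟩
      refine ⟨Submodule.smul_mem _ _ hz, fun h0 => ?_⟩
      have hc : c ≠ 0 := by rintro rfl; rw [zero_smul] at h0; exact h0 rfl
      have hz0 : z ≠ 0 := by rintro rfl; rw [smul_zero] at h0; exact h0 rfl
      have hc' : algebraMap k S c ≠ 0 := by
        rw [Ne, FaithfulSMul.algebraMap_eq_zero_iff]; exact hc
      have h1 := hYmul 0 u (map_zero ℓ) hu _ (hcm c) z hz hc' hz0
      rw [zero_add, hYc] at h1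
      rw [Algebra.smul_def, h1, P.mul _ _ (by simpa using hc) (hY0 u hu z hz hz0), hP c hc, zero_add]
      exact hz1 hz0
  choose! L hLm using hlev
  -- generators
  obtain ⟨T, hT1, hT2⟩ := exists_gens 𝒜 hfg
  -- slope claim
  have slope : ∀ (P : Place F), (∀ c : k, c ≠ 0 → P.v (algebraMap k F c) = 0) →
      ∀ (N₀ V₀ : ℤ), 0 < N₀ →
      (∀ p ∈ T, ℓ p.1 = 0 → 0 < deg p.1 → deg p.1 * V₀ ≤ N₀ * P.v (Y p.1 p.2)) →
      ∀ w, ℓ w = 0 → ∀ z ∈ 𝒜 w, z ≠ 0 → deg w * V₀ ≤ N₀ * P.v (Y w z) := by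
    intro P hP N₀ V₀ hN₀ hgen w hw z hz hz0
    have key := all_of_gen 𝒜 (fun u => if ℓ u = 0 then L P N₀ u (deg u * V₀) else 𝒜 u)
      (by
        intro u
        try dsimp only
        split_ifs with h
        · intro x hx; exact ((hLm P hP N₀ hN₀ u h _ x).1 hx).1
        · exact le_refl _)
      (by
        intro i j x hx y hy
        by_cases hx0 : x = 0
        · rw [hx0, zero_mul]; exact Submodule.zero_mem _
        by_cases hy0 : y = 0
        · rw [hy0, mul_zero]; exact Submodule.zero_mem _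
        have hx' : x ∈ 𝒜 i := by
          try dsimp only at hx
          split_ifs at hx with h
          · exact ((hLm P hP N₀ hN₀ i h _ x).1 hx).1
          · exact hx
        have hy' : y ∈ 𝒜 j := by
          try dsimp only at hy
          split_ifs at hy with h
          · exact ((hLm P hP N₀ hN₀ j h _ y).1 hy).1
          · exact hy
        try dsimp only
        split_ifs with h
        · have h2 := hface i j x hx' y hy' hx0 hy0 h
          try dsimp only at hx hy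
          rw [if_pos h2.1] at hx
          rw [if_pos h2.2] at hy
          have h3 := ((hLm P hP N₀ hN₀ i h2.1 _ x).1 hx).2 hx0
          have h4 := ((hLm P hP N₀ hN₀ j h2.2 _ y).1 hy).2 hy0
          refine (hLm P hP N₀ hN₀ _ h _ _).2 ⟨SetLike.mul_mem_graded hx' hy', fun _ => ?_⟩
          rw [hYmul i j h2.1 h2.2 x hx' y hy' hx0 hy0,
            P.mul _ _ (hY0 i h2.1 x hx' hx0) (hY0 j h2.2 y hy' hy0), map_add]
          linarith
        · exact SetLike.mul_mem_graded hx' hy')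
      (by
        intro c
        try dsimp only
        rw [if_pos (map_zero ℓ), hLm P hP N₀ hN₀ 0 (map_zero ℓ)]
        refine ⟨hcm c, fun h => ?_⟩
        have hc : c ≠ 0 := by rintro rfl; rw [map_zero] at h; exact h rfl
        rw [hYc, hP c hc, map_zero]
        simp)
      T
      (by
        intro p hp
        obtain ⟨hp1, hp2⟩ := hT1 p hp
        try dsimp only
        split_ifs with h
        · rw [hLm P hP N₀ hN₀ _ h]
          refine ⟨hp1, fun _ => ?_⟩
          rcases (hdeg p.1 p.2 hp1 hp2).lt_or_eq with h1 | h1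
          · exact hgen p hp h h1
          · obtain ⟨c, hc⟩ := hS0 p.1 h1.symm p.2 hp1
            have hp0 : p.1 = 0 := hinj _ h h1.symm
            have hc0 : c ≠ 0 := by rintro rfl; rw [map_zero] at hc; exact hp2 hc
            rw [hp0, hc, hYc, hP c hc0, map_zero]
            simp
        · exact hp1)
      hT2 z w
    rw [cmp_of_mem 𝒜 hz, if_pos rfl] at key
    try dsimp only at key
    rw [if_pos hw, hLm P hP N₀ hN₀ _ hw] at key
    exact key.2 hz0
  -- generators in the face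
  set Tf := T.filter (fun p => ℓ p.1 = 0 ∧ 0 < deg p.1) with hTf
  have hTf1 : ∀ p ∈ Tf, p.2 ∈ 𝒜 p.1 ∧ p.2 ≠ 0 ∧ ℓ p.1 = 0 ∧ 0 < deg p.1 := by
    intro p hp
    rw [hTf, Finset.mem_filter] at hp
    exact ⟨(hT1 p hp.1).1, (hT1 p hp.1).2, hp.2.1, hp.2.2⟩
  have hTfne : Tf.Nonempty := by
    by_contra hcon
    rw [Finset.not_nonempty_iff_eq_empty] at hcon
    obtain ⟨u, hu1, hu2, x, hx, hx0⟩ := hpt
    have h1 := slope ⟨fun _ => 0, fun _ _ _ _ => by simp, fun _ _ _ _ _ => by simp⟩ (fun _ _ => rfl)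
      1 1 one_pos (by
        intro p hp h1 h2
        have : p ∈ Tf := by
          rw [hTf, Finset.mem_filter]; exact ⟨hp, h1, h2⟩
        rw [hcon] at this
        exact absurd this (Finset.notMem_empty p)) u hu1 x hx hx0
    try dsimp only at h1
    omega
  -- Step D
  have stepD : ∀ (P : Place F), (∀ c : k, c ≠ 0 → P.v (algebraMap k F c) = 0) →
      ∃ m : ℤ, (∀ p ∈ Tf, deg p.1 * m ≤ P.v (Y p.1 p.2)) ∧
        ∃ p ∈ Tf, P.v (Y p.1 p.2) = deg p.1 * m := by
    intro P hP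
    obtain ⟨p₀, hp₀, hmin⟩ := Finset.exists_min_image Tf
      (fun p => ((P.v (Y p.1 p.2) : ℤ) : ℚ) / (deg p.1 : ℚ)) hTfne
    obtain ⟨hp₀1, hp₀2, hp₀3, hp₀4⟩ := hTf1 p₀ hp₀
    set d₀ := deg p₀.1 with hd₀
    set V₀ := P.v (Y p₀.1 p₀.2) with hV₀
    have hs := slope P hP d₀ V₀ hp₀4 (by
      intro p hp h1 h2
      have hpT : p ∈ Tf := by rw [hTf, Finset.mem_filter]; exact ⟨hp, h1, h2⟩
      have h3 := hmin p hpT
      have hd1 : (0 : ℚ) < (d₀ : ℚ) := by exact_mod_cast hp₀4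
      have hd2 : (0 : ℚ) < (deg p.1 : ℚ) := by exact_mod_cast h2
      rw [div_le_div_iff₀ hd1 hd2] at h3
      have h4 : V₀ * deg p.1 ≤ P.v (Y p.1 p.2) * d₀ := by exact_mod_cast h3
      linarith)
    obtain ⟨P', hP1, hP2, hP3⟩ := exists_prime 𝒜
      (fun u => if ℓ u = 0 then L P d₀ u (deg u * V₀ + 1) else 𝒜 u)
      (by
        intro u
        try dsimp only
        split_ifs with h
        · intro x hx; exact ((hLm P hP d₀ hp₀4 u h _ x).1 hx).1
        · exact le_refl _)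
      (by
        intro i j x hx' y hy
        by_cases hx0 : x = 0
        · rw [hx0, zero_mul]; exact Submodule.zero_mem _
        by_cases hy0 : y = 0
        · rw [hy0, mul_zero]; exact Submodule.zero_mem _
        have hy' : y ∈ 𝒜 j := by
          try dsimp only at hy
          split_ifs at hy with h
          · exact ((hLm P hP d₀ hp₀4 j h _ y).1 hy).1
          · exact hy
        try dsimp only
        split_ifs with h
        · have h2 := hface i j x hx' y hy' hx0 hy0 h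
          try dsimp only at hy
          rw [if_pos h2.2] at hy
          have h3 := hs i h2.1 x hx' hx0
          have h4 := ((hLm P hP d₀ hp₀4 j h2.2 _ y).1 hy).2 hy0
          refine (hLm P hP d₀ hp₀4 _ h _ _).2 ⟨SetLike.mul_mem_graded hx' hy', fun _ => ?_⟩
          rw [hYmul i j h2.1 h2.2 x hx' y hy' hx0 hy0,
            P.mul _ _ (hY0 i h2.1 x hx' hx0) (hY0 j h2.2 y hy' hy0), map_add]
          linarith
        · exact SetLike.mul_mem_graded hx' hy')
      (by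
        intro i j x hx y hy hxy
        try dsimp only at hxy ⊢
        by_cases hi : ℓ i = 0
        · by_cases hj : ℓ j = 0
          · by_cases hx0 : x = 0
            · left; rw [hx0]; exact Submodule.zero_mem _
            by_cases hy0 : y = 0
            · right; rw [hy0]; exact Submodule.zero_mem _
            have hij : ℓ (i + j) = 0 := by rw [map_add, hi, hj, add_zero]
            rw [if_pos hij, hLm P hP d₀ hp₀4 _ hij] at hxy
            rw [if_pos hi, if_pos hj, hLm P hP d₀ hp₀4 _ hi, hLm P hP d₀ hp₀4 _ hj]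
            by_contra hcon
            push Not at hcon
            obtain ⟨_, h1⟩ := hcon.1 hx
            obtain ⟨_, h2⟩ := hcon.2 hy
            have h3 := hxy.2 (mul_ne_zero hx0 hy0)
            rw [hYmul i j hi hj x hx y hy hx0 hy0,
              P.mul _ _ (hY0 i hi x hx hx0) (hY0 j hj y hy hy0), map_add] at h3
            have h4 : d₀ * (P.v (Y i x) + P.v (Y j y)) = d₀ * P.v (Y i x) + d₀ * P.v (Y j y) := by ring
            have h5 : (deg i + deg j) * V₀ = deg i * V₀ + deg j * V₀ := by ring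
            omega
          · right; rw [if_neg hj]; exact hy
        · left; rw [if_neg hi]; exact hx)
      (by
        try dsimp only
        rw [if_pos (map_zero ℓ), hLm P hP d₀ hp₀4 _ (map_zero ℓ)]
        intro h
        have h1 := h.2 one_ne_zero
        have h2 := hYc 1
        rw [map_one, map_one] at h2
        rw [h2, Place.one] at h1
        simp at h1)
    have hex : ∀ x, x ∉ P' → ∃ u, ℓ u = 0 ∧ cmp 𝒜 x u ≠ 0 ∧
        d₀ * P.v (Y u (cmp 𝒜 x u)) = deg u * V₀ := by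
      intro x hx
      rw [hP3] at hx
      push Not at hx
      obtain ⟨u, hu⟩ := hx
      try dsimp only at hu
      split_ifs at hu with h
      · rw [hLm P hP d₀ hp₀4 _ h] at hu
        push Not at hu
        obtain ⟨h1, h2⟩ := hu (cmp_mem 𝒜 x u)
        have h3 := hs u h _ (cmp_mem 𝒜 x u) h1
        exact ⟨u, h, h1, by omega⟩
      · exact absurd (cmp_mem 𝒜 x u) hu
    obtain ⟨n', a', b', ha', hb', haP, hbP⟩ := hL P' hP1 hP2 ⟨p₀.1, hp₀4, p₀.2, hp₀1, by
      intro h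
      have h1 := (hP3 _).1 h p₀.1
      rw [cmp_of_mem 𝒜 hp₀1, if_pos rfl] at h1
      try dsimp only at h1
      rw [if_pos hp₀3, hLm P hP d₀ hp₀4 _ hp₀3] at h1
      have h2 := h1.2 hp₀2
      rw [← hd₀, ← hV₀] at h2
      omega⟩
    obtain ⟨w', hw', ha0', hav⟩ := hex a' haP
    obtain ⟨w'', hw'', hb0', hbv⟩ := hex b' hbP
    rw [ha' w' ha0'] at hav
    rw [hb' w'' hb0'] at hbv
    set va := P.v (Y w' (cmp 𝒜 a' w')) with hva
    set vb := P.v (Y w'' (cmp 𝒜 b' w'')) with hvb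
    have hV : V₀ = d₀ * (vb - va) := by
      have : d₀ * (vb - va) = d₀ * vb - d₀ * va := by ring
      rw [this, hav, hbv]; ring
    refine ⟨vb - va, ?_, p₀, hp₀, hV⟩
    intro p hp
    obtain ⟨hp1, hp2, hp3, hp4⟩ := hTf1 p hp
    have h5 := hs p.1 hp3 p.2 hp1 hp2
    rw [hV] at h5
    have h6 : d₀ * (deg p.1 * (vb - va)) ≤ d₀ * P.v (Y p.1 p.2) := by linarith
    exact le_of_mul_le_mul_left h6 hp₀4
  -- Step E
  obtain ⟨I, P, hPc, hPV, hPf⟩ := hG
  obtain ⟨f, hf0, hf⟩ := hPf (Λ × S) Tf (fun p => Y p.1 p.2) (fun p => deg p.1) hTfne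
    (fun p hp => by
      obtain ⟨hp1, hp2, hp3, hp4⟩ := hTf1 p hp
      exact ⟨hY0 _ hp3 _ hp1 hp2, hp4⟩)
    (fun i => stepD (P i) (hPc i))
  -- Step F
  obtain ⟨z, hz⟩ : ∃ z : S, ι z = (f : K) * u₁ := by
    by_contra hcon
    have hnot : (f : K) * u₁ ∉ ι.range := by
      rintro ⟨z, hz⟩
      exact hcon ⟨z, hz⟩
    have hic : IsIntegrallyClosedIn ι.range K := by
      rw [Subring.isIntegrallyClosedIn_iff]
      intro x hx
      obtain ⟨p, hp, hpx⟩ := hx
      have hsurj : Function.Surjective ι.rangeRestrict := ι.rangeRestrict_surjective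
      have hlift : p ∈ Polynomial.lifts ι.rangeRestrict :=
        (Polynomial.mem_lifts _).2 (Polynomial.map_surjective _ hsurj p)
      obtain ⟨q, hq, -, hqm⟩ := Polynomial.lifts_and_natDegree_eq_and_monic hlift hp
      have hxi : IsIntegral S x := by
        refine ⟨q, hqm, ?_⟩
        rw [← hpx, ← hq, Polynomial.eval₂_map]
        rfl
      obtain ⟨y, hy⟩ := IsIntegrallyClosed.isIntegral_iff.1 hxi
      exact ⟨y, hy⟩
    obtain ⟨V, hV1, hV2⟩ := Subring.exists_le_valuationSubring_of_isIntegrallyClosedIn hnot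
    have hVS : ∀ s : S, ι s ∈ V := fun s => hV1 ⟨s, rfl⟩
    -- restrict to `F`
    have hconst : ∀ c : k, algebraMap k F c ∈ V.comap (algebraMap F K) := by
      intro c
      rw [ValuationSubring.mem_comap, ← IsScalarTower.algebraMap_apply]
      rw [IsScalarTower.algebraMap_apply k S K]
      exact hVS _
    obtain ⟨p, hp, hpV⟩ : ∃ p ∈ Tf, f ^ (deg p.1).toNat / Y p.1 p.2 ∈ V.comap (algebraMap F K) := by
      rcases hPV (V.comap (algebraMap F K)) hconst with h | ⟨i, hi⟩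
      · obtain ⟨p, hp⟩ := hTfne
        exact ⟨p, hp, by rw [h]; exact ValuationSubring.mem_top _⟩
      · obtain ⟨p, hp, hpi⟩ := hf i
        obtain ⟨hp1, hp2, hp3, hp4⟩ := hTf1 p hp
        refine ⟨p, hp, hi _ (div_ne_zero (pow_ne_zero _ hf0) (hY0 _ hp3 _ hp1 hp2)) ?_⟩
        rw [div_eq_mul_inv, (P i).mul _ _ (pow_ne_zero _ hf0) (inv_ne_zero (hY0 _ hp3 _ hp1 hp2)),
          Place.inv _ _ (hY0 _ hp3 _ hp1 hp2), Place.pow _ _ hf0, Int.toNat_of_nonneg hp4.le]
        try dsimp only at hpi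
        omega
    obtain ⟨hp1, hp2, hp3, hp4⟩ := hTf1 p hp
    rw [ValuationSubring.mem_comap] at hpV
    have hpow : ((f : K) * u₁) ^ (deg p.1).toNat ∈ V := by
      have h1 : ((f : K) * u₁) ^ (deg p.1).toNat =
          (algebraMap F K (f ^ (deg p.1).toNat / Y p.1 p.2)) * ι p.2 := by
        rw [map_div₀, map_pow]
        have h2 : algebraMap F K (Y p.1 p.2) = ι p.2 * (u₁ ^ (deg p.1).toNat)⁻¹ :=
          hY p.1 hp3 p.2 hp1
        rw [h2, mul_pow]
        have h3 := hne _ hp2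
        have h4 := pow_ne_zero (deg p.1).toNat hu₁0
        have h5 : algebraMap F K f = (f : K) := rfl
        rw [h5]
        field_simp
      rw [h1]
      exact mul_mem hpV (hVS _)
    apply hV2
    have hpos : (deg p.1).toNat ≠ 0 := by omega
    have hxi : IsIntegral V ((f : K) * u₁) := by
      refine ⟨Polynomial.X ^ (deg p.1).toNat - Polynomial.C ⟨_, hpow⟩,
        Polynomial.monic_X_pow_sub_C _ hpos, ?_⟩
      rw [Polynomial.eval₂_sub, Polynomial.eval₂_X_pow, Polynomial.eval₂_C, sub_eq_zero]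
      rfl
    obtain ⟨y, hy⟩ := IsIntegrallyClosed.isIntegral_iff.1 hxi
    rw [← hy]
    exact y.2
  -- Step G
  obtain ⟨w, hw, c, hc, d, hd, hd0, hcd⟩ := faceField_rep 𝒜 ℓ (f : K) f.2
  have heq : (A * d) * z = c * B := by
    apply hιinj
    rw [map_mul, map_mul, map_mul, hz, hcd, hu₁]
    have h1 := hne A hA0
    have h2 := hne d hd0
    rw [show algebraMap S (FractionRing S) c = ι c from rfl,
      show algebraMap S (FractionRing S) d = ι d from rfl]
    have h3 : ι d * ι A ≠ 0 := mul_ne_zero h2 h1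
    rw [div_mul_div_comm, mul_comm (ι A) (ι d), mul_comm, div_mul_cancel₀ _ h3]
  have hz0 : z ≠ 0 := by
    rintro rfl
    rw [map_zero] at hz
    exact mul_ne_zero (fun h => hf0 (Subtype.ext h)) hu₁0 hz.symm
  have hAd : A * d ∈ 𝒜 (wa + w) := SetLike.mul_mem_graded hA hd
  have hcB : c * B ∈ 𝒜 (w + wb) := SetLike.mul_mem_graded hc hB
  have hzv : (A * d) * ((decompose 𝒜 z (wb - wa) : 𝒜 (wb - wa)) : S) = (A * d) * z := by
    have h1 := DirectSum.coe_decompose_mul_add_of_left_mem 𝒜 (b := z) (i := wa + w) (j := wb - wa) hAd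
    rw [← h1, heq, show wa + w + (wb - wa) = w + wb by abel]
    exact decompose_of_mem_same 𝒜 hcB
  have hAd0 : A * d ≠ 0 := mul_ne_zero hA0 hd0
  refine ⟨wb - wa, by rw [map_sub, hda, hdb]; ring, z, ?_, hz0⟩
  have h2 := mul_left_cancel₀ hAd0 hzv
  rw [← h2]
  exact (decompose 𝒜 z (wb - wa)).2

end main

end Run7.h409.Face
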