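import Mathlib

/-!
# Places of subfields of `k(t)`

`G0 k F` says: `F/k` has a system of places for which every integral slope divisor coming from a
finite family of functions is dominated by a principal divisor. It holds for every subfield of `k(t)`.
-/

namespace Run7.h409.Genus0

open Polynomial

set_option linter.unusedSectionVars false

/-- an additive discrete valuation of `F`, with values in `ℤ` on nonzero elements -/
structure Place (F : Type) [Field F] where
  v : F → ℤ
  mul : ∀ x y, x ≠ 0 → y ≠ 0 → v (x * y) = v x + v y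
  add : ∀ x y, x ≠ 0 → y ≠ 0 → x + y ≠ 0 → min (v x) (v y) ≤ v (x + y)

/-- the key property of a field `F` over `k` -/
def G0 (k F : Type) [Field k] [Field F] [Algebra k F] : Prop :=
  ∃ (I : Type) (P : I → Place F),
    (∀ i, ∀ c : k, c ≠ 0 → (P i).v (algebraMap k F c) = 0) ∧
    (∀ V : ValuationSubring F, (∀ c : k, algebraMap k F c ∈ V) →
      V = ⊤ ∨ ∃ i, ∀ x, x ≠ 0 → 0 ≤ (P i).v x → x ∈ V) ∧
    (∀ (ι : Type) (s : Finset ι) (x : ι → F) (n : ι → ℤ), s.Nonempty →
      (∀ j ∈ s, x j ≠ 0 ∧ 0 < n j) →
      (∀ i, ∃ m : ℤ, (∀ j ∈ s, n j * m ≤ (P i).v (x j)) ∧ ∃ j ∈ s, (P i).v (x j) = n j * m) →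
      ∃ f : F, f ≠ 0 ∧ ∀ i, ∃ j ∈ s, (P i).v (x j) ≤ n j * (P i).v f)

/-- transport of a place along an isomorphism -/
def Place.map {F E : Type} [Field F] [Field E] (e : F ≃+* E) (P : Place F) : Place E where
  v x := P.v (e.symm x)
  mul x y hx hy := by
    rw [map_mul]
    exact P.mul _ _ (by simpa using hx) (by simpa using hy)
  add x y hx hy hxy := by
    rw [map_add]
    exact P.add _ _ (by simpa using hx) (by simpa using hy) (by
      rw [← map_add]; exact fun h => hxy (by simpa only [map_eq_zero_iff e.symm e.symm.injective] using h))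

theorem G0.map {k F E : Type} [Field k] [Field F] [Field E] [Algebra k F] [Algebra k E]
    (e : F ≃ₐ[k] E) (h : G0 k F) : G0 k E := by
  obtain ⟨I, P, h1, h2, h3⟩ := h
  refine ⟨I, fun i => (P i).map e.toRingEquiv, ?_, ?_, ?_⟩
  · intro i c hc
    show (P i).v (e.symm (algebraMap k E c)) = 0
    rw [AlgEquiv.commutes]
    exact h1 i c hc
  · intro V hV
    rcases h2 (V.comap (e : F →+* E)) (fun c => by
      rw [ValuationSubring.mem_comap]
      show e (algebraMap k F c) ∈ V
      rw [AlgEquiv.commutes]
      exact hV c) with h | ⟨i, hi⟩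
    · left
      rw [eq_top_iff]
      intro x _
      have hx : e.symm x ∈ V.comap (e : F →+* E) := by rw [h]; exact ValuationSubring.mem_top _
      rw [ValuationSubring.mem_comap] at hx
      simpa using hx
    · right
      refine ⟨i, fun x hx hv => ?_⟩
      have hx' := hi (e.symm x) (by simpa using hx) hv
      rw [ValuationSubring.mem_comap] at hx'
      simpa using hx'
  · intro ι s x n hs hx hm
    obtain ⟨f, hf, hf2⟩ := h3 ι s (fun j => e.symm (x j)) n hs
      (fun j hj => ⟨by simpa using (hx j hj).1, (hx j hj).2⟩) hm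
    refine ⟨e f, by simpa using hf, fun i => ?_⟩
    obtain ⟨j, hj, hj2⟩ := hf2 i
    refine ⟨j, hj, ?_⟩
    show (P i).v (e.symm (x j)) ≤ n j * (P i).v (e.symm (e f))
    rw [AlgEquiv.symm_apply_apply]
    exact hj2

theorem G0_self (k F : Type) [Field k] [Field F] [Algebra k F]
    (h : Function.Surjective (algebraMap k F)) : G0 k F := by
  refine ⟨Empty, fun i => i.elim, fun i => i.elim, ?_, ?_⟩
  · intro V hV
    left
    rw [eq_top_iff]
    intro x _
    obtain ⟨c, rfl⟩ := h x
    exact hV c
  · intro ι s x n _ _ _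
    exact ⟨1, one_ne_zero, fun i => i.elim⟩

section ratfunc

variable {k : Type} [Field k]

/-- order of vanishing at `c` -/
noncomputable def ord (c : k) (x : RatFunc k) : ℤ :=
  (rootMultiplicity c x.num : ℤ) - rootMultiplicity c x.denom

theorem ord_div (c : k) {p q : k[X]} (hp : p ≠ 0) (hq : q ≠ 0) :
    ord c (algebraMap k[X] (RatFunc k) p / algebraMap k[X] (RatFunc k) q) =
      (rootMultiplicity c p : ℤ) - rootMultiplicity c q := by
  set x := algebraMap k[X] (RatFunc k) p / algebraMap k[X] (RatFunc k) q with hx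
  have hp' : algebraMap k[X] (RatFunc k) p ≠ 0 := by
    simpa using hp
  have hq' : algebraMap k[X] (RatFunc k) q ≠ 0 := by
    simpa using hq
  have hx0 : x ≠ 0 := div_ne_zero hp' hq'
  have h1 : x.num * q = p * x.denom := by
    apply RatFunc.algebraMap_injective k
    have h2 := RatFunc.num_div_denom x
    have h3 : algebraMap k[X] (RatFunc k) x.denom ≠ 0 := by
      simpa using x.denom_ne_zero
    rw [div_eq_iff h3] at h2
    rw [map_mul, map_mul, h2, hx]
    field_simp
  have hn : x.num ≠ 0 := RatFunc.num_ne_zero hx0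
  have h4 := congrArg (rootMultiplicity c) h1
  rw [rootMultiplicity_mul (mul_ne_zero hn hq),
    rootMultiplicity_mul (mul_ne_zero hp x.denom_ne_zero)] at h4
  unfold ord
  omega

theorem exists_rep (x : RatFunc k) (hx : x ≠ 0) : ∃ p q : k[X], p ≠ 0 ∧ q ≠ 0 ∧ IsCoprime p q ∧
    x = algebraMap k[X] (RatFunc k) p / algebraMap k[X] (RatFunc k) q :=
  ⟨x.num, x.denom, RatFunc.num_ne_zero hx, x.denom_ne_zero, RatFunc.isCoprime_num_denom x,
    (RatFunc.num_div_denom x).symm⟩

theorem am_ne {p : k[X]} (hp : p ≠ 0) : algebraMap k[X] (RatFunc k) p ≠ 0 := by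
  simpa using hp

theorem ord_mul (c : k) (x y : RatFunc k) (hx : x ≠ 0) (hy : y ≠ 0) :
    ord c (x * y) = ord c x + ord c y := by
  obtain ⟨p, q, hp, hq, -, rfl⟩ := exists_rep x hx
  obtain ⟨p', q', hp', hq', -, rfl⟩ := exists_rep y hy
  rw [div_mul_div_comm, ← map_mul, ← map_mul, ord_div c (mul_ne_zero hp hp') (mul_ne_zero hq hq'),
    ord_div c hp hq, ord_div c hp' hq', rootMultiplicity_mul (mul_ne_zero hp hp'),
    rootMultiplicity_mul (mul_ne_zero hq hq')]
  push_cast
  ring

theorem ord_add (c : k) (x y : RatFunc k) (hx : x ≠ 0) (hy : y ≠ 0) (hxy : x + y ≠ 0) :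
    min (ord c x) (ord c y) ≤ ord c (x + y) := by
  obtain ⟨p, q, hp, hq, -, rfl⟩ := exists_rep x hx
  obtain ⟨p', q', hp', hq', -, rfl⟩ := exists_rep y hy
  have hs : algebraMap k[X] (RatFunc k) p / algebraMap k[X] (RatFunc k) q +
      algebraMap k[X] (RatFunc k) p' / algebraMap k[X] (RatFunc k) q' =
      algebraMap k[X] (RatFunc k) (p * q' + q * p') / algebraMap k[X] (RatFunc k) (q * q') := by
    rw [div_add_div _ _ (am_ne hq) (am_ne hq')]
    simp only [map_mul, map_add]
  rw [hs] at hxy ⊢
  have hne : p * q' + q * p' ≠ 0 := by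
    rintro h
    rw [h] at hxy
    simp at hxy
  rw [ord_div c hne (mul_ne_zero hq hq'), ord_div c hp hq, ord_div c hp' hq',
    rootMultiplicity_mul (mul_ne_zero hq hq')]
  have h1 := rootMultiplicity_add (a := c) hne
  rw [rootMultiplicity_mul (mul_ne_zero hp hq'), rootMultiplicity_mul (mul_ne_zero hq hp')] at h1
  push_cast
  omega

/-- the place at `c` -/
noncomputable def placeAt (c : k) : Place (RatFunc k) := ⟨ord c, ord_mul c, ord_add c⟩

/-- the place at infinity -/
noncomputable def placeInf : Place (RatFunc k) where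
  v x := - x.intDegree
  mul x y hx hy := by rw [RatFunc.intDegree_mul hx hy]; ring
  add x y hx hy hxy := by
    have := RatFunc.intDegree_add_le hy hxy
    omega

/-- all places of `k(t)` for algebraically closed `k` -/
noncomputable def places : Option k → Place (RatFunc k)
  | none => placeInf
  | some c => placeAt c

theorem algebraMap_k (c : k) : algebraMap k (RatFunc k) c = algebraMap k[X] (RatFunc k) (C c) := by
  rw [RatFunc.algebraMap_C]; rfl

theorem places_const (i : Option k) (c : k) (hc : c ≠ 0) :
    (places i).v (algebraMap k (RatFunc k) c) = 0 := by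
  cases i with
  | none =>
    show - (RatFunc.intDegree _) = 0
    have : algebraMap k (RatFunc k) c = RatFunc.C c := rfl
    rw [this, RatFunc.intDegree_C, neg_zero]
  | some a =>
    show ord a _ = 0
    have h := ord_div a (p := C c) (q := 1) (by simpa using hc) one_ne_zero
    rw [map_one, div_one, ← algebraMap_k] at h
    rw [h]
    simp

variable [IsAlgClosed k]

theorem sum_rootMultiplicity (p : k[X]) (hp : p ≠ 0) (Z : Finset k) (hZ : ∀ c, p.IsRoot c → c ∈ Z) :
    (∑ c ∈ Z, rootMultiplicity c p) = p.natDegree := by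
  classical
  have h1 : p.roots.card = p.natDegree := splits_iff_card_roots.1 (IsAlgClosed.splits p)
  rw [← h1, ← Multiset.toFinset_sum_count_eq]
  symm
  simp only [count_roots]
  apply Finset.sum_subset
  · intro c hc
    rw [Multiset.mem_toFinset, mem_roots hp] at hc
    exact hZ c hc
  · intro c _ hc
    rw [Multiset.mem_toFinset, mem_roots hp] at hc
    exact rootMultiplicity_eq_zero hc

theorem product_formula (x : RatFunc k) (hx : x ≠ 0) (Z : Finset k)
    (hZ : ∀ c, ord c x ≠ 0 → c ∈ Z) : (∑ c ∈ Z, ord c x) = x.intDegree := by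
  classical
  set Z' : Finset k := Z ∪ (x.num.roots.toFinset ∪ x.denom.roots.toFinset) with hZ'
  have h1 : (∑ c ∈ Z, ord c x) = ∑ c ∈ Z', ord c x := by
    apply Finset.sum_subset
    · exact Finset.subset_union_left
    · intro c _ hc
      by_contra h
      exact hc (hZ c h)
  have hn := RatFunc.num_ne_zero hx
  rw [h1]
  unfold ord
  rw [Finset.sum_sub_distrib]
  rw [← Nat.cast_sum, ← Nat.cast_sum, sum_rootMultiplicity _ hn, sum_rootMultiplicity _ x.denom_ne_zero]
  · rfl
  · intro c hc
    rw [hZ', Finset.mem_union, Finset.mem_union]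
    right; right
    rw [Multiset.mem_toFinset, mem_roots x.denom_ne_zero]
    exact hc
  · intro c hc
    rw [hZ', Finset.mem_union, Finset.mem_union]
    right; left
    rw [Multiset.mem_toFinset, mem_roots hn]
    exact hc

theorem ord_X_sub_C [DecidableEq k] (c d : k) :
    ord c (algebraMap k[X] (RatFunc k) (X - C d)) = if c = d then 1 else 0 := by
  have h := ord_div c (p := X - C d) (q := 1) (X_sub_C_ne_zero d) one_ne_zero
  rw [map_one, div_one] at h
  rw [h, rootMultiplicity_X_sub_C]
  have : rootMultiplicity c (1 : k[X]) = 0 := by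
    rw [← C_1]; exact rootMultiplicity_C 1 c
  rw [this]
  split_ifs with h1 <;> simp

theorem Place.one {F : Type} [Field F] (P : Place F) : P.v 1 = 0 := by
  have h := P.mul 1 1 one_ne_zero one_ne_zero
  rw [mul_one] at h
  omega

theorem Place.pow {F : Type} [Field F] (P : Place F) (x : F) (hx : x ≠ 0) (n : ℕ) :
    P.v (x ^ n) = n * P.v x := by
  induction n with
  | zero => rw [pow_zero, P.one]; simp
  | succ n ih => rw [pow_succ, P.mul _ _ (pow_ne_zero n hx) hx, ih]; push_cast; ring

theorem Place.inv {F : Type} [Field F] (P : Place F) (x : F) (hx : x ≠ 0) :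
    P.v (x⁻¹) = - P.v x := by
  have h := P.mul x x⁻¹ hx (inv_ne_zero hx)
  rw [mul_inv_cancel₀ hx, P.one] at h
  omega

theorem Place.zpow {F : Type} [Field F] (P : Place F) (x : F) (hx : x ≠ 0) (n : ℤ) :
    P.v (x ^ n) = n * P.v x := by
  cases n with
  | ofNat n =>
    rw [Int.ofNat_eq_natCast, zpow_natCast]; exact P.pow x hx n
  | negSucc n =>
    rw [zpow_negSucc, P.inv _ (pow_ne_zero _ hx), P.pow x hx, Int.negSucc_eq]; push_cast; ring

theorem Place.prod {F ι : Type} [Field F] (P : Place F) (s : Finset ι) (x : ι → F)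
    (hx : ∀ i ∈ s, x i ≠ 0) : P.v (∏ i ∈ s, x i) = ∑ i ∈ s, P.v (x i) := by
  classical
  induction s using Finset.induction_on with
  | empty => simp [P.one]
  | insert a s ha ih =>
    rw [Finset.prod_insert ha, Finset.sum_insert ha, P.mul _ _ (hx a (Finset.mem_insert_self a s))
      (Finset.prod_ne_zero_iff.2 (fun i hi => hx i (Finset.mem_insert_of_mem hi))),
      ih (fun i hi => hx i (Finset.mem_insert_of_mem hi))]

theorem exists_fun [DecidableEq k] (Z : Finset k) (m : k → ℤ) : ∃ f : RatFunc k, f ≠ 0 ∧
    (∀ c, ord c f = if c ∈ Z then m c else 0) ∧ f.intDegree = ∑ c ∈ Z, m c := by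
  have hne : ∀ d : k, algebraMap k[X] (RatFunc k) (X - C d) ≠ 0 := fun d => am_ne (X_sub_C_ne_zero d)
  refine ⟨∏ d ∈ Z, (algebraMap k[X] (RatFunc k) (X - C d)) ^ (m d), ?_, ?_, ?_⟩
  · exact Finset.prod_ne_zero_iff.2 (fun d _ => zpow_ne_zero _ (hne d))
  · intro c
    have h1 := (placeAt c).prod Z (fun d => (algebraMap k[X] (RatFunc k) (X - C d)) ^ (m d))
      (fun d _ => zpow_ne_zero _ (hne d))
    have h2 : ∀ d, (placeAt c).v ((algebraMap k[X] (RatFunc k) (X - C d)) ^ (m d)) =
        if c = d then m d else 0 := by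
      intro d
      rw [(placeAt c).zpow _ (hne d)]
      show m d * ord c _ = _
      rw [ord_X_sub_C]
      split_ifs <;> simp
    simp only [h2] at h1
    have h3 : (placeAt c).v (∏ d ∈ Z, (algebraMap k[X] (RatFunc k) (X - C d)) ^ (m d)) =
      ord c (∏ d ∈ Z, (algebraMap k[X] (RatFunc k) (X - C d)) ^ (m d)) := rfl
    rw [h3] at h1
    rw [h1, Finset.sum_ite_eq]
  · have h1 := (placeInf (k := k)).prod Z (fun d => (algebraMap k[X] (RatFunc k) (X - C d)) ^ (m d))
      (fun d _ => zpow_ne_zero _ (hne d))
    have h2 : ∀ d, (placeInf (k := k)).v ((algebraMap k[X] (RatFunc k) (X - C d)) ^ (m d)) = - m d := by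
      intro d
      rw [(placeInf (k := k)).zpow _ (hne d)]
      show m d * (- RatFunc.intDegree _) = _
      rw [RatFunc.intDegree_polynomial, natDegree_X_sub_C]
      simp
    simp only [h2] at h1
    have h3 : (placeInf (k := k)).v (∏ d ∈ Z, (algebraMap k[X] (RatFunc k) (X - C d)) ^ (m d)) =
      - RatFunc.intDegree (∏ d ∈ Z, (algebraMap k[X] (RatFunc k) (X - C d)) ^ (m d)) := rfl
    rw [h3, Finset.sum_neg_distrib] at h1
    omega

/-- a valuation ring of `k(t)` containing `k` contains the local ring of a place -/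
theorem exists_place_le (V : ValuationSubring (RatFunc k))
    (hV : ∀ c : k, algebraMap k (RatFunc k) c ∈ V) :
    V = ⊤ ∨ ∃ i : Option k, ∀ x, x ≠ 0 → 0 ≤ (places i).v x → x ∈ V := by
  classical
  have hC : ∀ c : k, algebraMap k[X] (RatFunc k) (C c) ∈ V := fun c => by
    rw [← algebraMap_k]; exact hV c
  by_cases hX : (algebraMap k[X] (RatFunc k) X) ∈ V
  · have hpoly : ∀ p : k[X], algebraMap k[X] (RatFunc k) p ∈ V := by
      intro p
      induction p using Polynomial.induction_on' with
      | add p q hp hq => rw [map_add]; exact add_mem hp hq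
      | monomial n a =>
        rw [← C_mul_X_pow_eq_monomial, map_mul, map_pow]
        exact mul_mem (hC a) (pow_mem hX n)
    by_cases hc : ∃ c : k, (algebraMap k[X] (RatFunc k) (X - C c))⁻¹ ∉ V
    · obtain ⟨c, hc⟩ := hc
      right
      refine ⟨some c, fun x hx h0 => ?_⟩
      obtain ⟨p, q, hp, hq, hpq, rfl⟩ := exists_rep x hx
      have h1 : (0 : ℤ) ≤ (rootMultiplicity c p : ℤ) - rootMultiplicity c q := by
        rw [← ord_div c hp hq]; exact h0
      have hq0 : q.eval c ≠ 0 := by
        intro hqc
        have h2 : 0 < rootMultiplicity c q := (rootMultiplicity_pos hq).2 hqc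
        have h3 : 0 < rootMultiplicity c p := by omega
        have hpc : p.eval c = 0 := (rootMultiplicity_pos hp).1 h3
        obtain ⟨a, b, hab⟩ := hpq
        have := congrArg (eval c) hab
        simp [hpc, hqc] at this
      -- `q` is a unit
      have hqi : (algebraMap k[X] (RatFunc k) q)⁻¹ ∈ V := by
        by_contra hcon
        -- `q` and `X - c` are nonunits, so is `q(c)`
        have h4 : algebraMap k[X] (RatFunc k) q ∈ V.nonunits :=
          (V.mem_nonunits_iff_or).2 (Or.inr hcon)
        have h5 : algebraMap k[X] (RatFunc k) (X - C c) ∈ V.nonunits :=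
          (V.mem_nonunits_iff_or).2 (Or.inr hc)
        obtain ⟨r, hr⟩ : X - C c ∣ q - C (q.eval c) := by
          rw [dvd_iff_isRoot]; simp
        have h6 : algebraMap k[X] (RatFunc k) (C (q.eval c)) ∈ V.nonunits := by
          have h7 : algebraMap k[X] (RatFunc k) (C (q.eval c)) =
              algebraMap k[X] (RatFunc k) q - algebraMap k[X] (RatFunc k) (X - C c) *
                algebraMap k[X] (RatFunc k) r := by
            rw [← map_mul, ← hr, map_sub]; ring
          rw [h7]
          refine sub_mem h4 ?_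
          rw [V.mem_nonunits_iff] at h5 ⊢
          rw [map_mul]
          exact mul_lt_one_of_nonneg_of_lt_one_left zero_le h5
            ((V.valuation_le_one_iff _).2 (hpoly r))
        rw [V.mem_nonunits_iff_or] at h6
        rcases h6 with h6 | h6
        · exact hq0 (by simpa using h6)
        · apply h6
          have := hV (q.eval c)⁻¹
          rw [map_inv₀, algebraMap_k] at this
          exact this
      rw [div_eq_mul_inv]
      exact mul_mem (hpoly p) hqi
    · push Not at hc
      left
      rw [eq_top_iff]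
      intro x _
      by_cases hx : x = 0
      · rw [hx]; exact zero_mem _
      obtain ⟨p, q, hp, hq, hpq, rfl⟩ := exists_rep x hx
      rw [div_eq_mul_inv]
      refine mul_mem (hpoly p) ?_
      have hs := IsAlgClosed.splits q
      rw [hs.eq_prod_roots]
      rw [map_mul, mul_inv]
      refine mul_mem ?_ ?_
      · have := hV (q.leadingCoeff)⁻¹
        rw [map_inv₀, algebraMap_k] at this
        exact this
      · generalize q.roots = m
        induction m using Multiset.induction_on with
        | empty => simp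
        | cons a m ih =>
          rw [Multiset.map_cons, Multiset.prod_cons, map_mul, mul_inv]
          exact mul_mem (hc a) ih
  · -- the place at infinity
    right
    refine ⟨none, fun x hx h0 => ?_⟩
    have hX0 : algebraMap k[X] (RatFunc k) X ≠ 0 := am_ne X_ne_zero
    have hXi : (algebraMap k[X] (RatFunc k) X)⁻¹ ∈ V := (V.mem_or_inv_mem _).resolve_left hX
    have hXn : (algebraMap k[X] (RatFunc k) X)⁻¹ ∈ V.nonunits :=
      (V.inv_mem_nonunits_iff).2 (Or.inr hX)
    -- `p / X ^ n` for `deg p ≤ n`
    have hle : ∀ (n : ℕ) (p : k[X]), p.natDegree ≤ n →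
        algebraMap k[X] (RatFunc k) p * (algebraMap k[X] (RatFunc k) X)⁻¹ ^ n ∈ V := by
      intro n p hp
      rw [p.as_sum_range_C_mul_X_pow, map_sum, Finset.sum_mul]
      refine sum_mem (fun i hi => ?_)
      rw [Finset.mem_range] at hi
      have hin : i ≤ n := by omega
      rw [map_mul, map_pow, mul_assoc]
      refine mul_mem (hC _) ?_
      obtain ⟨d, rfl⟩ := Nat.exists_eq_add_of_le hin
      rw [pow_add, ← mul_assoc, ← mul_pow, mul_inv_cancel₀ hX0, one_pow, one_mul]
      exact pow_mem hXi d
    have hunit : ∀ (q : k[X]), q ≠ 0 →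
        (algebraMap k[X] (RatFunc k) q * (algebraMap k[X] (RatFunc k) X)⁻¹ ^ q.natDegree)⁻¹ ∈ V := by
      intro q hq
      by_contra hcon
      have h4 := (V.mem_nonunits_iff_or).2 (Or.inr hcon)
      by_cases hd : q.natDegree = 0
      · rw [hd, pow_zero, mul_one] at hcon
        apply hcon
        obtain ⟨a, rfl⟩ := natDegree_eq_zero.1 hd
        have := hV a⁻¹
        rw [map_inv₀, algebraMap_k] at this
        exact this
      · have h5 : algebraMap k[X] (RatFunc k) (q.eraseLead) *
            (algebraMap k[X] (RatFunc k) X)⁻¹ ^ q.natDegree ∈ V.nonunits := by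
          obtain ⟨d, hd'⟩ : ∃ d, q.natDegree = d + 1 := ⟨q.natDegree - 1, by omega⟩
          rw [hd', pow_succ, ← mul_assoc]
          have h6 : q.eraseLead.natDegree ≤ d := by
            have := eraseLead_natDegree_le q
            omega
          have h7 := hle d _ h6
          rw [V.mem_nonunits_iff] at hXn ⊢
          rw [map_mul]
          exact mul_lt_one_of_nonneg_of_lt_one_right ((V.valuation_le_one_iff _).2 h7) zero_le hXn
        have h6 : algebraMap k[X] (RatFunc k) (C q.leadingCoeff) ∈ V.nonunits := by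
          have h7 : algebraMap k[X] (RatFunc k) (C q.leadingCoeff) =
              algebraMap k[X] (RatFunc k) q * (algebraMap k[X] (RatFunc k) X)⁻¹ ^ q.natDegree -
              algebraMap k[X] (RatFunc k) (q.eraseLead) *
                (algebraMap k[X] (RatFunc k) X)⁻¹ ^ q.natDegree := by
            rw [← sub_mul, ← map_sub]
            have h8 : q - q.eraseLead = C q.leadingCoeff * X ^ q.natDegree := by
              rw [sub_eq_iff_eq_add, add_comm]
              exact (eraseLead_add_C_mul_X_pow q).symm
            rw [h8, map_mul, map_pow, mul_assoc, ← mul_pow, mul_inv_cancel₀ hX0, one_pow, mul_one]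
          rw [h7]
          exact sub_mem h4 h5
        rw [V.mem_nonunits_iff_or] at h6
        rcases h6 with h6 | h6
        · have : C q.leadingCoeff = 0 := by simpa using h6
          rw [C_eq_zero, leadingCoeff_eq_zero] at this
          exact hq this
        · apply h6
          have := hV (q.leadingCoeff)⁻¹
          rw [map_inv₀, algebraMap_k] at this
          exact this
    obtain ⟨p, q, hp, hq, hpq, rfl⟩ := exists_rep x hx
    have hdeg : p.natDegree ≤ q.natDegree := by
      have h1 : (0 : ℤ) ≤ - RatFunc.intDegree (algebraMap k[X] (RatFunc k) p /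
        algebraMap k[X] (RatFunc k) q) := h0
      rw [RatFunc.intDegree_div (am_ne hp) (am_ne hq), RatFunc.intDegree_polynomial,
        RatFunc.intDegree_polynomial] at h1
      omega
    have h1 := mul_mem (hle _ p hdeg) (hunit q hq)
    have h2 : algebraMap k[X] (RatFunc k) p * (algebraMap k[X] (RatFunc k) X)⁻¹ ^ q.natDegree *
        (algebraMap k[X] (RatFunc k) q * (algebraMap k[X] (RatFunc k) X)⁻¹ ^ q.natDegree)⁻¹ =
        algebraMap k[X] (RatFunc k) p / algebraMap k[X] (RatFunc k) q := by
      have h3 := am_ne hq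
      have h4 : (algebraMap k[X] (RatFunc k) X)⁻¹ ^ q.natDegree ≠ 0 :=
        pow_ne_zero _ (inv_ne_zero hX0)
      rw [mul_inv, mul_mul_mul_comm, mul_inv_cancel₀ h4, mul_one, div_eq_mul_inv]
    rw [h2] at h1
    exact h1

theorem G0_ratFunc : G0 k (RatFunc k) := by
  classical
  refine ⟨Option k, places, places_const, exists_place_le, ?_⟩
  intro ι s x n hs hx hm
  choose m hm1 hm2 using hm
  -- the finite set of relevant points
  set Z : Finset k := s.biUnion (fun j => (x j).num.roots.toFinset ∪ (x j).denom.roots.toFinset) with hZ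
  have hord : ∀ c, c ∉ Z → ∀ j ∈ s, ord c (x j) = 0 := by
    intro c hc j hj
    rw [hZ, Finset.mem_biUnion] at hc
    push Not at hc
    have h1 := hc j hj
    rw [Finset.mem_union, not_or, Multiset.mem_toFinset, Multiset.mem_toFinset,
      mem_roots (RatFunc.num_ne_zero (hx j hj).1), mem_roots (x j).denom_ne_zero] at h1
    unfold ord
    rw [rootMultiplicity_eq_zero h1.1, rootMultiplicity_eq_zero h1.2]
    simp
  have hmZ : ∀ c, c ∉ Z → m (some c) = 0 := by
    intro c hc
    obtain ⟨j, hj, hj2⟩ := hm2 (some c)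
    have h1 : (places (some c)).v (x j) = 0 := hord c hc j hj
    rw [h1] at hj2
    have h3 := (hx j hj).2
    rcases mul_eq_zero.1 hj2.symm with h4 | h4
    · omega
    · exact h4
  obtain ⟨f, hf0, hf1, hf2⟩ := exists_fun Z (fun c => m (some c))
  refine ⟨f, hf0, ?_⟩
  intro i
  obtain ⟨j, hj, hj2⟩ := hm2 i
  refine ⟨j, hj, ?_⟩
  rw [hj2]
  apply mul_le_mul_of_nonneg_left _ (hx j hj).2.le
  cases i with
  | some c =>
    show m (some c) ≤ ord c f
    rw [hf1 c]
    split_ifs with h
    · exact le_refl _
    · rw [hmZ c h]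
  | none =>
    show m none ≤ - f.intDegree
    rw [hf2]
    have h1 := product_formula (x j) (hx j hj).1 Z (fun c hc => by
      by_contra h
      exact hc (hord c h j hj))
    have h2 : ∑ c ∈ Z, n j * m (some c) ≤ ∑ c ∈ Z, ord c (x j) :=
      Finset.sum_le_sum (fun c _ => hm1 (some c) j hj)
    rw [h1, ← Finset.mul_sum] at h2
    have h3 : n j * m none ≤ - (x j).intDegree := hm1 none j hj
    have h4 : n j * (m none + ∑ c ∈ Z, m (some c)) ≤ 0 := by
      rw [mul_add]; omega
    have h5 := (hx j hj).2
    have h6 : m none + ∑ c ∈ Z, m (some c) ≤ 0 := by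
      by_contra hcon
      push Not at hcon
      have := mul_pos h5 hcon
      omega
    omega

end ratfunc

/-- every field with an embedding in `k(t)` has the property -/
theorem G0_of_embedding {k F : Type} [Field k] [IsAlgClosed k] [Field F] [Algebra k F]
    (j : F →ₐ[k] RatFunc k) : G0 k F := by
  have e : F ≃ₐ[k] j.fieldRange := AlgEquiv.ofInjectiveField j
  by_cases h : j.fieldRange = ⊥
  · apply G0_self
    intro x
    have hx : j x ∈ j.fieldRange := ⟨x, rfl⟩
    rw [h, IntermediateField.mem_bot] at hx
    obtain ⟨c, hc⟩ := hx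
    refine ⟨c, ?_⟩
    apply (j : F →+* RatFunc k).injective
    show j (algebraMap k F c) = j x
    rw [AlgHom.commutes]
    exact hc
  · exact (G0_ratFunc.map (RatFunc.Luroth.algEquiv h)).map e.symm

end Run7.h409.Genus0
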